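import Mathlib

/-!
# Principal symmetric ideals: definitions
-/

namespace Q23Psi

open MvPolynomial Equiv

/-- The ideal generated by the orbit of `f` under the symmetric group, which acts by
`(σ • f)(x_1, ..., x_d) = f(x_{σ 1}, ..., x_{σ d})`, i.e. by `MvPolynomial.rename σ`. -/
noncomputable def symIdeal {k : Type*} [Field k] {d : ℕ} (f : MvPolynomial (Fin d) k) :
    Ideal (MvPolynomial (Fin d) k) :=
  Ideal.span (Set.range fun σ : Perm (Fin d) => rename σ f)

/-- Principal symmetric ideals: generated by the orbit of a homogeneous polynomial. -/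
def IsPsi {k : Type*} [Field k] {d : ℕ} (I : Ideal (MvPolynomial (Fin d) k)) : Prop :=
  ∃ (f : MvPolynomial (Fin d) k) (n : ℕ), f.IsHomogeneous n ∧ I = symIdeal f

end Q23Psi
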