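import Mathlib
import Pool.Agent.Q23.Psi.Defs

/-!
# Homogeneous components of products and of ideal members
-/

namespace Q23Psi

open MvPolynomial Equiv

variable {k : Type*} [Field k] {d : ℕ}

/-- the grading as a one-parameter substitution -/
noncomputable def grad : MvPolynomial (Fin d) k →ₐ[k] Polynomial (MvPolynomial (Fin d) k) :=
  MvPolynomial.aeval (fun i => Polynomial.C (X i) * Polynomial.X)

theorem grad_monomial (s : Fin d →₀ ℕ) (c : k) :
    grad (monomial s c) = Polynomial.C (monomial s c) * Polynomial.X ^ s.degree := by
  unfold grad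
  rw [MvPolynomial.aeval_monomial]
  rw [MvPolynomial.monomial_eq]
  have h1 : (algebraMap k (Polynomial (MvPolynomial (Fin d) k))) c = Polynomial.C (C c) := rfl
  rw [h1]
  simp only [Finsupp.prod, mul_pow, Finset.prod_mul_distrib, map_mul, map_prod, map_pow]
  rw [Finset.prod_pow_eq_pow_sum]
  rw [mul_assoc]
  rfl

theorem grad_coeff (p : MvPolynomial (Fin d) k) (n : ℕ) :
    (grad p).coeff n = homogeneousComponent n p := by
  induction p using MvPolynomial.induction_on' with
  | monomial s c =>
    rw [grad_monomial, Polynomial.coeff_C_mul, Polynomial.coeff_X_pow]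
    rw [homogeneousComponent_of_mem (isHomogeneous_monomial c rfl)]
    split_ifs with h1
    · rw [mul_one]
    · rw [mul_zero]
  | add p q hp hq => rw [map_add, Polynomial.coeff_add, hp, hq, map_add]

theorem hc_mul (p q : MvPolynomial (Fin d) k) (n : ℕ) :
    homogeneousComponent n (p * q) =
      ∑ x ∈ Finset.HasAntidiagonal.antidiagonal n, homogeneousComponent x.1 p * homogeneousComponent x.2 q := by
  rw [← grad_coeff, map_mul, Polynomial.coeff_mul]
  simp only [grad_coeff]

theorem hc_mul_low (p q : MvPolynomial (Fin d) k) (m : ℕ)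
    (hq : ∀ n < m, homogeneousComponent n q = 0) :
    (∀ n < m, homogeneousComponent n (p * q) = 0) ∧
      homogeneousComponent m (p * q) = C (coeff 0 p) * homogeneousComponent m q := by
  constructor
  · intro n hn
    rw [hc_mul]
    apply Finset.sum_eq_zero
    intro x hx
    rw [Finset.HasAntidiagonal.mem_antidiagonal] at hx
    rw [hq x.2 (by omega), mul_zero]
  · rw [hc_mul, Finset.sum_eq_single (0, m)]
    · rw [homogeneousComponent_zero]
    · intro x hx hne
      rw [Finset.HasAntidiagonal.mem_antidiagonal] at hx
      rw [hq x.2, mul_zero]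
      by_contra hcon
      apply hne
      ext
      · simp only
        omega
      · simp only
        omega
    · intro h
      exact absurd (Finset.HasAntidiagonal.mem_antidiagonal.2 (by simp)) h

theorem hc_span {ι : Type*} [Fintype ι] (v : ι → MvPolynomial (Fin d) k) (m : ℕ)
    (hv : ∀ i, ∀ n < m, homogeneousComponent n (v i) = 0) (p : MvPolynomial (Fin d) k)
    (hp : p ∈ Ideal.span (Set.range v)) :
    (∀ n < m, homogeneousComponent n p = 0) ∧
      homogeneousComponent m p ∈
        Submodule.span k (Set.range fun i => homogeneousComponent m (v i)) := by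
  obtain ⟨c, hc⟩ := Ideal.mem_span_range_iff_exists_fun.1 hp
  rw [← hc]
  constructor
  · intro n hn
    rw [map_sum]
    exact Finset.sum_eq_zero fun i _ => (hc_mul_low (c i) (v i) m (hv i)).1 n hn
  · rw [map_sum]
    apply Submodule.sum_mem
    intro i _
    rw [(hc_mul_low (c i) (v i) m (hv i)).2, ← smul_eq_C_mul]
    exact Submodule.smul_mem _ _ (Submodule.subset_span ⟨i, rfl⟩)

/-- Lowest component of a square. -/
theorem hc_sq (p : MvPolynomial (Fin d) k) (n : ℕ) (hp : ∀ m < n, homogeneousComponent m p = 0) :
    homogeneousComponent (2 * n) (p ^ 2) = homogeneousComponent n p ^ 2 := by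
  rw [sq, hc_mul, Finset.sum_eq_single (n, n)]
  · rw [sq]
  · intro x hx hne
    rw [Finset.HasAntidiagonal.mem_antidiagonal] at hx
    rcases lt_trichotomy x.1 n with h | h | h
    · rw [hp x.1 h, zero_mul]
    · exfalso
      apply hne
      ext
      · simp only
        omega
      · simp only
        omega
    · rw [hp x.2 (by omega), mul_zero]
  · intro h
    exact absurd (Finset.HasAntidiagonal.mem_antidiagonal.2 (by simp only; omega)) h

end Q23Psi
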