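import Mathlib
import Pool.Agent.Q23.Psi.Comp

/-!
# The ideal of a configuration `(t, f, g)` and its square are principal symmetric
-/

namespace Q23Psi

open MvPolynomial Equiv

variable {k : Type*} [Field k]

/-- An alternating form `t` and two isotropic equivariant 7-tuples `f`, `g`, all homogeneous of
the same degree, with `∑ f_i g_i = t ^ 2`. -/
structure Cfg (k : Type*) [Field k] where
  m : ℕ
  t : MvPolynomial (Fin 7) k
  f : Fin 7 → MvPolynomial (Fin 7) k
  g : Fin 7 → MvPolynomial (Fin 7) k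
  t_hom : t.IsHomogeneous m
  f_hom : ∀ i, (f i).IsHomogeneous m
  g_hom : ∀ i, (g i).IsHomogeneous m
  t_ne : t ≠ 0
  t_alt : ∀ i j, i ≠ j → rename (swap i j) t = -t
  f_eq : ∀ (σ : Perm (Fin 7)) (i : Fin 7), rename σ (f i) = f (σ i)
  g_eq : ∀ (σ : Perm (Fin 7)) (i : Fin 7), rename σ (g i) = g (σ i)
  f_sum : ∑ i, f i = 0
  g_sum : ∑ i, g i = 0
  f_sq : ∑ i, f i ^ 2 = 0
  g_sq : ∑ i, g i ^ 2 = 0
  fg : ∑ i, f i * g i = t ^ 2

/-- Stable under all permutations of the variables. -/
def Stab (M : Ideal (MvPolynomial (Fin 7) k)) : Prop :=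
  ∀ (σ : Perm (Fin 7)) (p : MvPolynomial (Fin 7) k), p ∈ M → rename σ p ∈ M

theorem stab_span (S : Set (MvPolynomial (Fin 7) k))
    (h : ∀ (σ : Perm (Fin 7)), ∀ p ∈ S, rename σ p ∈ Ideal.span S) : Stab (Ideal.span S) := by
  intro σ p hp
  have h1 : Ideal.map (rename σ : MvPolynomial (Fin 7) k →ₐ[k] MvPolynomial (Fin 7) k)
      (Ideal.span S) ≤ Ideal.span S := by
    rw [Ideal.map_span, Ideal.span_le]
    rintro _ ⟨q, hq, rfl⟩
    exact h σ q hq
  exact h1 (Ideal.mem_map_of_mem _ hp)

theorem rename_rename' (σ τ : Perm (Fin 7)) (p : MvPolynomial (Fin 7) k) :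
    rename σ (rename τ p) = rename (σ * τ) p := by
  rw [rename_rename]
  rfl

theorem stab_symIdeal (f : MvPolynomial (Fin 7) k) : Stab (symIdeal f) := by
  apply stab_span
  rintro σ _ ⟨τ, rfl⟩
  apply Ideal.subset_span
  exact ⟨σ * τ, (rename_rename' σ τ f).symm⟩

theorem self_mem_symIdeal (f : MvPolynomial (Fin 7) k) : f ∈ symIdeal f := by
  apply Ideal.subset_span
  refine ⟨1, ?_⟩
  show rename (id : Fin 7 → Fin 7) f = f
  exact rename_id_apply f

theorem symIdeal_le (f : MvPolynomial (Fin 7) k) (M : Ideal (MvPolynomial (Fin 7) k))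
    (hM : Stab M) (hf : f ∈ M) : symIdeal f ≤ M := by
  unfold symIdeal
  rw [Ideal.span_le]
  rintro _ ⟨σ, rfl⟩
  exact hM σ f hf

theorem exists_perm3 {a b c a' b' c' : Fin 7} (h1 : a ≠ b) (h2 : a ≠ c) (h3 : b ≠ c)
    (h1' : a' ≠ b') (h2' : a' ≠ c') (h3' : b' ≠ c') :
    ∃ σ : Perm (Fin 7), σ a = a' ∧ σ b = b' ∧ σ c = c' := by
  set s1 : Perm (Fin 7) := swap a a' with hs1
  have e1 : s1 a = a' := swap_apply_left a a'
  set b1 := s1 b with hb1
  have hb1' : b1 ≠ a' := by
    rw [hb1, ← e1]
    exact fun h => h1 (s1.injective h).symm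
  set s2 : Perm (Fin 7) := swap b1 b' with hs2
  have e2 : s2 b1 = b' := swap_apply_left b1 b'
  have e2' : s2 a' = a' := swap_apply_of_ne_of_ne hb1'.symm h1'
  set c1 := s2 (s1 c) with hc1
  have hc1' : c1 ≠ a' := by
    rw [hc1, ← e2', ← e1]
    exact fun h => h2 (s1.injective (s2.injective h)).symm
  have hc1'' : c1 ≠ b' := by
    rw [hc1, ← e2, hb1]
    exact fun h => h3 (s1.injective (s2.injective h)).symm
  set s3 : Perm (Fin 7) := swap c1 c' with hs3
  have e3 : s3 c1 = c' := swap_apply_left c1 c'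
  have e3' : s3 a' = a' := swap_apply_of_ne_of_ne hc1'.symm h2'
  have e3'' : s3 b' = b' := swap_apply_of_ne_of_ne hc1''.symm h3'
  refine ⟨s3 * s2 * s1, ?_, ?_, ?_⟩
  · show s3 (s2 (s1 a)) = a'
    rw [e1, e2', e3']
  · show s3 (s2 (s1 b)) = b'
    rw [← hb1, e2, e3'']
  · show s3 (s2 (s1 c)) = c'
    rw [← hc1, e3]

section lem

variable [CharZero k] (M : Ideal (MvPolynomial (Fin 7) k))

theorem mem_of_nat_mul {p : MvPolynomial (Fin 7) k} (n : ℕ) (hn : n ≠ 0)
    (h : (n : MvPolynomial (Fin 7) k) * p ∈ M) : p ∈ M := by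
  have h1 : p = C ((n : k)⁻¹) * ((n : MvPolynomial (Fin 7) k) * p) := by
    have h2 : (n : MvPolynomial (Fin 7) k) = C (n : k) := (map_natCast C n).symm
    rw [h2, ← mul_assoc, ← C_mul, inv_mul_cancel₀ (Nat.cast_ne_zero.2 hn), C_1, one_mul]
  rw [h1]
  exact M.mul_mem_left _ h

/-- From differences to the members. -/
theorem mem_of_diff (v : Fin 7 → MvPolynomial (Fin 7) k) (z : MvPolynomial (Fin 7) k)
    (hv : ∑ i, v i = 0) (h : ∀ a b, a ≠ b → (v a - v b) * z ∈ M) (a : Fin 7) : v a * z ∈ M := by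
  have h1 : ∑ b, (v a - v b) * z ∈ M := by
    apply M.sum_mem
    intro b _
    by_cases hab : a = b
    · rw [hab, sub_self, zero_mul]
      exact M.zero_mem
    · exact h a b hab
  have h2 : ∑ b, (v a - v b) * z = ((7 : ℕ) : MvPolynomial (Fin 7) k) * (v a * z) := by
    rw [← Finset.sum_mul, Finset.sum_sub_distrib, hv, Finset.sum_const, Finset.card_univ,
      Fintype.card_fin]
    simp only [nsmul_eq_mul, sub_zero]
    ring
  rw [h2] at h1
  exact mem_of_nat_mul M 7 (by norm_num) h1

/-- From `(v_a - v_b) z_c` to `6 v_a z_c + v_c z_c`. -/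
theorem mem_six (v z : Fin 7 → MvPolynomial (Fin 7) k) (hv : ∑ i, v i = 0)
    (h : ∀ a b c, a ≠ b → a ≠ c → b ≠ c → (v a - v b) * z c ∈ M) (a c : Fin 7) (hac : a ≠ c) :
    6 * (v a * z c) + v c * z c ∈ M := by
  have h1 : ∑ b ∈ Finset.univ.erase c, (v a - v b) * z c ∈ M := by
    apply M.sum_mem
    intro b hb
    by_cases hab : a = b
    · rw [hab, sub_self, zero_mul]
      exact M.zero_mem
    · exact h a b c hab hac (Finset.ne_of_mem_erase hb)
  have h2 : ∑ b ∈ Finset.univ.erase c, v b = - v c := by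
    have := Finset.add_sum_erase Finset.univ v (Finset.mem_univ c)
    rw [hv] at this
    linear_combination this
  have h3 : ∑ b ∈ Finset.univ.erase c, (v a - v b) * z c = 6 * (v a * z c) + v c * z c := by
    rw [← Finset.sum_mul, Finset.sum_sub_distrib, h2, Finset.sum_const, Finset.card_erase_of_mem
      (Finset.mem_univ c), Finset.card_univ, Fintype.card_fin]
    simp only [nsmul_eq_mul]
    push_cast
    ring
  rw [← h3]
  exact h1

/-- All products `v_a v_c` from `(v_a - v_b) v_c`, given `∑ v_i ^ 2 = 0`. -/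
theorem mem_sq (v : Fin 7 → MvPolynomial (Fin 7) k) (hv : ∑ i, v i = 0) (hv2 : ∑ i, v i ^ 2 = 0)
    (h : ∀ a b c, a ≠ b → a ≠ c → b ≠ c → (v a - v b) * v c ∈ M) (a c : Fin 7) :
    v a * v c ∈ M := by
  have h1 : ∀ a c, a ≠ c → 6 * (v a * v c) + v c * v c ∈ M := mem_six M v v hv h
  have h2 : ∀ a b, a ≠ b → (v a ^ 2 - v b ^ 2) * 1 ∈ M := by
    intro a b hab
    have := M.sub_mem (h1 b a hab.symm) (h1 a b hab)
    convert this using 1
    ring
  have h3 : ∀ a, v a ^ 2 ∈ M := by
    intro a
    have := mem_of_diff M (fun i => v i ^ 2) 1 hv2 h2 a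
    simpa using this
  by_cases hac : a = c
  · subst hac
    rw [← sq]
    exact h3 a
  · have h4 := M.sub_mem (h1 a c hac) (h3 c)
    have h5 : 6 * (v a * v c) + v c * v c - v c ^ 2 =
        ((6 : ℕ) : MvPolynomial (Fin 7) k) * (v a * v c) := by
      push_cast
      ring
    rw [h5] at h4
    exact mem_of_nat_mul M 6 (by norm_num) h4

end lem

namespace Cfg

variable (D : Cfg k)

/-- The generators of the ideal. -/
def gens : Option (Fin 7 ⊕ Fin 7) → MvPolynomial (Fin 7) k
  | none => D.t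
  | some (Sum.inl i) => D.f i
  | some (Sum.inr i) => D.g i

/-- The ideal of the configuration. -/
noncomputable def I : Ideal (MvPolynomial (Fin 7) k) := Ideal.span (Set.range D.gens)

theorem t_mem : D.t ∈ D.I := Ideal.subset_span ⟨none, rfl⟩

theorem f_mem (i : Fin 7) : D.f i ∈ D.I := Ideal.subset_span ⟨some (Sum.inl i), rfl⟩

theorem g_mem (i : Fin 7) : D.g i ∈ D.I := Ideal.subset_span ⟨some (Sum.inr i), rfl⟩

theorem gens_hom (i : Option (Fin 7 ⊕ Fin 7)) : (D.gens i).IsHomogeneous D.m := by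
  rcases i with _ | i | i
  · exact D.t_hom
  · exact D.f_hom i
  · exact D.g_hom i

theorem rename_t (σ : Perm (Fin 7)) : rename σ D.t = D.t ∨ rename σ D.t = - D.t := by
  induction σ using Equiv.Perm.swap_induction_on with
  | one =>
    left
    show rename (id : Fin 7 → Fin 7) D.t = D.t
    exact rename_id_apply D.t
  | swap_mul σ x y hxy ih =>
    rw [← rename_rename' (swap x y) σ]
    rcases ih with h | h
    · rw [h, D.t_alt x y hxy]
      exact Or.inr rfl
    · rw [h, map_neg, D.t_alt x y hxy, neg_neg]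
      exact Or.inl rfl

theorem stab_I : Stab D.I := by
  apply stab_span
  rintro σ _ ⟨i, rfl⟩
  rcases i with _ | i | i
  · show rename σ D.t ∈ D.I
    rcases D.rename_t σ with h | h
    · rw [h]
      exact D.t_mem
    · rw [h]
      exact D.I.neg_mem D.t_mem
  · show rename σ (D.f i) ∈ D.I
    rw [D.f_eq]
    exact D.f_mem _
  · show rename σ (D.g i) ∈ D.I
    rw [D.g_eq]
    exact D.g_mem _

theorem stab_I2 : Stab (D.I ^ 2) := by
  intro σ p hp
  have h1 : Ideal.map (rename σ : MvPolynomial (Fin 7) k →ₐ[k] MvPolynomial (Fin 7) k)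
      (D.I ^ 2) ≤ D.I ^ 2 := by
    rw [Ideal.map_pow]
    apply Ideal.pow_right_mono
    rw [Ideal.map_le_iff_le_comap]
    intro q hq
    exact D.stab_I σ q hq
  exact h1 (Ideal.mem_map_of_mem _ hp)

/-- The generator of `I`. -/
noncomputable def F : MvPolynomial (Fin 7) k := D.t + D.f 0 + D.g 1

theorem I_eq [CharZero k] : D.I = symIdeal D.F := by
  apply le_antisymm
  · set M := symIdeal D.F with hM
    have hst : Stab M := stab_symIdeal _
    have hF : D.F ∈ M := self_mem_symIdeal _
    have ht : D.t ∈ M := by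
      have h1 := M.sub_mem hF (hst (swap 2 3) _ hF)
      have h2 : D.F - rename (swap 2 3) D.F = ((2 : ℕ) : MvPolynomial (Fin 7) k) * D.t := by
        unfold F
        rw [map_add, map_add, D.t_alt 2 3 (by decide), D.f_eq, D.g_eq,
          show (swap (2 : Fin 7) 3) 0 = 0 by decide, show (swap (2 : Fin 7) 3) 1 = 1 by decide]
        push_cast
        ring
      rw [h2] at h1
      exact mem_of_nat_mul M 2 (by norm_num) h1
    have hH : D.f 0 + D.g 1 ∈ M := by
      have := M.sub_mem hF ht
      convert this using 1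
      unfold F
      ring
    have hd : D.f 0 - D.f 2 ∈ M := by
      have := M.sub_mem hH (hst (swap 0 2) _ hH)
      rw [map_add, D.f_eq, D.g_eq, show (swap (0 : Fin 7) 2) 0 = 2 by decide,
          show (swap (0 : Fin 7) 2) 1 = 1 by decide] at this
      convert this using 1
      ring
    have hdd : ∀ a b : Fin 7, a ≠ b → (D.f a - D.f b) * 1 ∈ M := by
      intro a b hab
      obtain ⟨c, hca, hcb⟩ : ∃ c : Fin 7, a ≠ c ∧ b ≠ c := by
        revert a b
        decide
      obtain ⟨σ, h1, h2, _⟩ := exists_perm3 (a := 0) (b := 2) (c := 1) (a' := a) (b' := b)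
        (c' := c) (by decide) (by decide) (by decide) hab hca hcb
      have := hst σ _ hd
      rw [map_sub, D.f_eq, D.f_eq, h1, h2] at this
      rw [mul_one]
      exact this
    have hf : ∀ i, D.f i ∈ M := by
      intro i
      have := mem_of_diff M D.f 1 D.f_sum hdd i
      rwa [mul_one] at this
    have hg1 : D.g 1 ∈ M := by
      have := M.sub_mem hH (hf 0)
      convert this using 1
      ring
    have hg : ∀ i, D.g i ∈ M := by
      intro i
      have := hst (swap 1 i) _ hg1
      rwa [D.g_eq, swap_apply_left] at this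
    unfold I
    rw [Ideal.span_le]
    rintro _ ⟨i, rfl⟩
    rcases i with _ | i | i
    · exact ht
    · exact hf i
    · exact hg i
  · apply symIdeal_le _ _ D.stab_I
    exact D.I.add_mem (D.I.add_mem D.t_mem (D.f_mem 0)) (D.g_mem 1)

/-- The generator of `I ^ 2`. -/
noncomputable def G : MvPolynomial (Fin 7) k :=
  D.f 0 * D.f 1 + D.g 2 * D.g 3 + D.f 4 * D.g 5 + D.t * D.f 6 + D.t * D.g 0

theorem I2_eq [CharZero k] : D.I ^ 2 = symIdeal D.G := by
  apply le_antisymm
  · set M := symIdeal D.G with hM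
    have hst : Stab M := stab_symIdeal _
    have hG : D.G ∈ M := self_mem_symIdeal _
    -- the `t`-part
    have h1 : D.t * (D.f 6 + D.g 0) ∈ M := by
      have h1 := M.sub_mem hG (hst (swap 2 3) _ hG)
      have h2 : D.G - rename (swap 2 3) D.G =
          ((2 : ℕ) : MvPolynomial (Fin 7) k) * (D.t * (D.f 6 + D.g 0)) := by
        unfold G
        simp only [map_add, map_mul, D.t_alt 2 3 (by decide), D.f_eq, D.g_eq,
          show (swap (2 : Fin 7) 3) 0 = 0 by decide, show (swap (2 : Fin 7) 3) 1 = 1 by decide,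
          show (swap (2 : Fin 7) 3) 2 = 3 by decide, show (swap (2 : Fin 7) 3) 3 = 2 by decide,
          show (swap (2 : Fin 7) 3) 4 = 4 by decide, show (swap (2 : Fin 7) 3) 5 = 5 by decide,
          show (swap (2 : Fin 7) 3) 6 = 6 by decide]
        push_cast
        ring
      rw [h2] at h1
      exact mem_of_nat_mul M 2 (by norm_num) h1
    have h2 : D.t * (D.f 6 - D.f 1) ∈ M := by
      have := M.add_mem h1 (hst (swap 1 6) _ h1)
      rw [map_mul, map_add, D.t_alt 1 6 (by decide), D.f_eq, D.g_eq,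
        show (swap (1 : Fin 7) 6) 6 = 1 by decide, show (swap (1 : Fin 7) 6) 0 = 0 by decide]
        at this
      convert this using 1
      ring
    have h3 : ∀ a b : Fin 7, a ≠ b → (D.f a - D.f b) * D.t ∈ M := by
      intro a b hab
      obtain ⟨c, hca, hcb⟩ : ∃ c : Fin 7, a ≠ c ∧ b ≠ c := by
        revert a b
        decide
      obtain ⟨σ, h1, h2', _⟩ := exists_perm3 (a := 6) (b := 1) (c := 0) (a' := a) (b' := b)
        (c' := c) (by decide) (by decide) (by decide) hab hca hcb
      have := hst σ _ h2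
      rw [map_mul, map_sub, D.f_eq, D.f_eq, h1, h2'] at this
      rcases D.rename_t σ with h | h
      · rw [h] at this
        rw [mul_comm]
        exact this
      · rw [h] at this
        have h4 := M.neg_mem this
        convert h4 using 1
        ring
    have tf : ∀ a, D.f a * D.t ∈ M := mem_of_diff M D.f D.t D.f_sum h3
    have tg0 : D.g 0 * D.t ∈ M := by
      have := M.sub_mem h1 (tf 6)
      convert this using 1
      ring
    have tg : ∀ a, D.g a * D.t ∈ M := by
      intro a
      have h4 := hst (swap 0 a) _ tg0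
      rw [map_mul, D.g_eq, swap_apply_left] at h4
      rcases D.rename_t (swap 0 a) with h | h
      · rwa [h] at h4
      · rw [h] at h4
        have h5 := M.neg_mem h4
        convert h5 using 1
        ring
    -- the rest
    have hG0 : D.f 0 * D.f 1 + D.g 2 * D.g 3 + D.f 4 * D.g 5 ∈ M := by
      have := M.sub_mem (M.sub_mem hG (tf 6)) (tg 0)
      convert this using 1
      unfold G
      ring
    have hff0 : (D.f 0 - D.f 6) * D.f 1 ∈ M := by
      have := M.sub_mem hG0 (hst (swap 0 6) _ hG0)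
      simp only [map_add, map_mul, D.f_eq, D.g_eq,
          show (swap (0 : Fin 7) 6) 0 = 6 by decide, show (swap (0 : Fin 7) 6) 1 = 1 by decide,
          show (swap (0 : Fin 7) 6) 2 = 2 by decide, show (swap (0 : Fin 7) 6) 3 = 3 by decide,
          show (swap (0 : Fin 7) 6) 4 = 4 by decide, show (swap (0 : Fin 7) 6) 5 = 5 by decide]
        at this
      convert this using 1
      ring
    have hgg0 : (D.g 2 - D.g 6) * D.g 3 ∈ M := by
      have := M.sub_mem hG0 (hst (swap 2 6) _ hG0)
      simp only [map_add, map_mul, D.f_eq, D.g_eq,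
          show (swap (2 : Fin 7) 6) 0 = 0 by decide, show (swap (2 : Fin 7) 6) 1 = 1 by decide,
          show (swap (2 : Fin 7) 6) 2 = 6 by decide, show (swap (2 : Fin 7) 6) 3 = 3 by decide,
          show (swap (2 : Fin 7) 6) 4 = 4 by decide, show (swap (2 : Fin 7) 6) 5 = 5 by decide]
        at this
      convert this using 1
      ring
    have hfg0 : (D.f 4 - D.f 6) * D.g 5 ∈ M := by
      have := M.sub_mem hG0 (hst (swap 4 6) _ hG0)
      simp only [map_add, map_mul, D.f_eq, D.g_eq,
          show (swap (4 : Fin 7) 6) 0 = 0 by decide, show (swap (4 : Fin 7) 6) 1 = 1 by decide,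
          show (swap (4 : Fin 7) 6) 2 = 2 by decide, show (swap (4 : Fin 7) 6) 3 = 3 by decide,
          show (swap (4 : Fin 7) 6) 4 = 6 by decide, show (swap (4 : Fin 7) 6) 5 = 5 by decide]
        at this
      convert this using 1
      ring
    have hff1 : ∀ a b c, a ≠ b → a ≠ c → b ≠ c → (D.f a - D.f b) * D.f c ∈ M := by
      intro a b c hab hac hbc
      obtain ⟨σ, h1, h2, h3⟩ := exists_perm3 (a := 0) (b := 6) (c := 1) (a' := a) (b' := b)
        (c' := c) (by decide) (by decide) (by decide) hab hac hbc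
      have := hst σ _ hff0
      rwa [map_mul, map_sub, D.f_eq, D.f_eq, D.f_eq, h1, h2, h3] at this
    have hgg1 : ∀ a b c, a ≠ b → a ≠ c → b ≠ c → (D.g a - D.g b) * D.g c ∈ M := by
      intro a b c hab hac hbc
      obtain ⟨σ, h1, h2, h3⟩ := exists_perm3 (a := 2) (b := 6) (c := 3) (a' := a) (b' := b)
        (c' := c) (by decide) (by decide) (by decide) hab hac hbc
      have := hst σ _ hgg0
      rwa [map_mul, map_sub, D.g_eq, D.g_eq, D.g_eq, h1, h2, h3] at this
    have hfg1 : ∀ a b c, a ≠ b → a ≠ c → b ≠ c → (D.f a - D.f b) * D.g c ∈ M := by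
      intro a b c hab hac hbc
      obtain ⟨σ, h1, h2, h3⟩ := exists_perm3 (a := 4) (b := 6) (c := 5) (a' := a) (b' := b)
        (c' := c) (by decide) (by decide) (by decide) hab hac hbc
      have := hst σ _ hfg0
      rwa [map_mul, map_sub, D.f_eq, D.f_eq, D.g_eq, h1, h2, h3] at this
    have ff : ∀ a c, D.f a * D.f c ∈ M := mem_sq M D.f D.f_sum D.f_sq hff1
    have gg : ∀ a c, D.g a * D.g c ∈ M := mem_sq M D.g D.g_sum D.g_sq hgg1
    have fg45 : D.f 4 * D.g 5 ∈ M := by
      have := M.sub_mem (M.sub_mem hG0 (ff 0 1)) (gg 2 3)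
      convert this using 1
      ring
    have fgne : ∀ a c : Fin 7, a ≠ c → D.f a * D.g c ∈ M := by
      intro a b hab
      obtain ⟨c, hca, hcb⟩ : ∃ c : Fin 7, a ≠ c ∧ b ≠ c := by
        revert a b
        decide
      obtain ⟨σ, h1, h2, _⟩ := exists_perm3 (a := 4) (b := 5) (c := 0) (a' := a) (b' := b)
        (c' := c) (by decide) (by decide) (by decide) hab hca hcb
      have := hst σ _ fg45
      rwa [map_mul, D.f_eq, D.g_eq, h1, h2] at this
    have fgeq : ∀ c, D.f c * D.g c ∈ M := by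
      intro c
      obtain ⟨a, hac⟩ : ∃ a : Fin 7, a ≠ c := by
        revert c
        decide
      have := M.sub_mem (mem_six M D.f D.g D.f_sum hfg1 a c hac)
        (M.mul_mem_left 6 (fgne a c hac))
      convert this using 1
      ring
    have fg : ∀ a c, D.f a * D.g c ∈ M := by
      intro a c
      by_cases h : a = c
      · rw [h]
        exact fgeq c
      · exact fgne a c h
    have tt : D.t * D.t ∈ M := by
      rw [← sq, ← D.fg]
      exact M.sum_mem fun c _ => fgeq c
    rw [sq]
    unfold I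
    rw [Ideal.span_mul_span', Ideal.span_le, Set.mul_subset_iff]
    rintro _ ⟨i, rfl⟩ _ ⟨j, rfl⟩
    rcases i with _ | i | i <;> rcases j with _ | j | j
    · exact tt
    · show D.t * D.f j ∈ M
      rw [mul_comm]
      exact tf j
    · show D.t * D.g j ∈ M
      rw [mul_comm]
      exact tg j
    · exact tf i
    · exact ff i j
    · exact fg i j
    · exact tg i
    · show D.g i * D.f j ∈ M
      rw [mul_comm]
      exact fg j i
    · exact gg i j
  · apply symIdeal_le _ _ D.stab_I2
    have hm : ∀ p q, p ∈ D.I → q ∈ D.I → p * q ∈ D.I ^ 2 := by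
      intro p q hp hq
      rw [sq]
      exact Ideal.mul_mem_mul hp hq
    unfold G
    refine Ideal.add_mem _ (Ideal.add_mem _ (Ideal.add_mem _ (Ideal.add_mem _ ?_ ?_) ?_) ?_) ?_
    · exact hm _ _ (D.f_mem _) (D.f_mem _)
    · exact hm _ _ (D.g_mem _) (D.g_mem _)
    · exact hm _ _ (D.f_mem _) (D.g_mem _)
    · exact hm _ _ D.t_mem (D.f_mem _)
    · exact hm _ _ D.t_mem (D.g_mem _)

theorem psi_I [CharZero k] : IsPsi D.I := by
  refine ⟨D.F, D.m, ?_, D.I_eq⟩
  exact (D.t_hom.add (D.f_hom 0)).add (D.g_hom 1)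

theorem psi_I2 [CharZero k] : IsPsi (D.I ^ 2) := by
  refine ⟨D.G, D.m + D.m, ?_, D.I2_eq⟩
  exact ((((D.f_hom 0).mul (D.f_hom 1)).add ((D.g_hom 2).mul (D.g_hom 3))).add
    ((D.f_hom 4).mul (D.g_hom 5))).add (D.t_hom.mul (D.f_hom 6)) |>.add (D.t_hom.mul (D.g_hom 0))

end Cfg

end Q23Psi
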