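import Mathlib
import Pool.Agent.Q23.Psi.Cfg

/-!
# No generator of the configuration ideal is an eigenvector of a transposition
-/

namespace Q23Psi

open MvPolynomial Equiv

variable {k : Type*} [Field k]

namespace Cfg

variable (D : Cfg k)

/-- `rename σ` as a linear map. -/
noncomputable def rn (σ : Perm (Fin 7)) : MvPolynomial (Fin 7) k →ₗ[k] MvPolynomial (Fin 7) k :=
  (rename σ : MvPolynomial (Fin 7) k →ₐ[k] MvPolynomial (Fin 7) k).toLinearMap

theorem rn_apply (σ : Perm (Fin 7)) (p : MvPolynomial (Fin 7) k) : rn σ p = rename σ p := rfl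

theorem hc_gens (i : Option (Fin 7 ⊕ Fin 7)) (n : ℕ) (hn : n < D.m) :
    homogeneousComponent n (D.gens i) = 0 := by
  rw [homogeneousComponent_of_mem (D.gens_hom i), if_neg (by omega)]

theorem hc_gens_self (i : Option (Fin 7 ⊕ Fin 7)) :
    homogeneousComponent D.m (D.gens i) = D.gens i := by
  rw [homogeneousComponent_of_mem (D.gens_hom i), if_pos rfl]

theorem lead_mem (p : MvPolynomial (Fin 7) k) (hp : p ∈ D.I) :
    (∀ n < D.m, homogeneousComponent n p = 0) ∧
      homogeneousComponent D.m p ∈ Submodule.span k (Set.range D.gens) := by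
  have h := hc_span D.gens D.m (fun i n hn => D.hc_gens i n hn) p hp
  simp only [hc_gens_self] at h
  exact h

theorem gens_mem_orbit (p : MvPolynomial (Fin 7) k) (hp : D.I = symIdeal p)
    (i : Option (Fin 7 ⊕ Fin 7)) :
    D.gens i ∈ Submodule.span k (Set.range fun σ : Perm (Fin 7) =>
      rename σ (homogeneousComponent D.m p)) := by
  have hpI : p ∈ D.I := by
    rw [hp]
    exact self_mem_symIdeal p
  have hlow := (D.lead_mem p hpI).1
  have h1 : D.gens i ∈ symIdeal p := by
    rw [← hp]
    exact Ideal.subset_span ⟨i, rfl⟩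
  have h2 := hc_span (fun σ : Perm (Fin 7) => rename σ p) D.m (fun σ n hn => by
    rw [← rename_homogeneousComponent, hlow n hn, map_zero]) (D.gens i) h1
  simp only [← rename_homogeneousComponent, hc_gens_self] at h2
  exact h2.2

/-- The span of the `f_i` and `g_i`. -/
noncomputable def Q : Submodule k (MvPolynomial (Fin 7) k) :=
  Submodule.span k (Set.range D.f ∪ Set.range D.g)

theorem f_mem_Q (i : Fin 7) : D.f i ∈ D.Q := Submodule.subset_span (Or.inl ⟨i, rfl⟩)

theorem g_mem_Q (i : Fin 7) : D.g i ∈ D.Q := Submodule.subset_span (Or.inr ⟨i, rfl⟩)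

theorem stab_Q (σ : Perm (Fin 7)) (p : MvPolynomial (Fin 7) k) (hp : p ∈ D.Q) :
    rename σ p ∈ D.Q := by
  have h : D.Q ≤ D.Q.comap (rn σ) := by
    unfold Q
    rw [Submodule.span_le]
    rintro _ (⟨i, rfl⟩ | ⟨i, rfl⟩)
    · show rename σ (D.f i) ∈ D.Q
      rw [D.f_eq]
      exact D.f_mem_Q _
    · show rename σ (D.g i) ∈ D.Q
      rw [D.g_eq]
      exact D.g_mem_Q _
  exact h hp

/-- The operator `(1 - (0 1)) (1 - (2 3))`. -/
noncomputable def op1 : MvPolynomial (Fin 7) k →ₗ[k] MvPolynomial (Fin 7) k :=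
  (LinearMap.id - rn (swap 0 1)) ∘ₗ (LinearMap.id - rn (swap 2 3))

theorem op1_apply (p : MvPolynomial (Fin 7) k) : op1 p =
    p - rename (swap 2 3) p - rename (swap 0 1) (p - rename (swap 2 3) p) := rfl

theorem op1_equi (v : Fin 7 → MvPolynomial (Fin 7) k)
    (hv : ∀ (σ : Perm (Fin 7)) (i : Fin 7), rename σ (v i) = v (σ i)) (i : Fin 7) :
    op1 (v i) = 0 := by
  rw [op1_apply]
  simp only [map_sub, hv]
  by_cases h : i = 2 ∨ i = 3
  · have h1 : (swap (0 : Fin 7) 1) i = i := by
      rcases h with rfl | rfl <;> decide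
    have h2 : (swap (0 : Fin 7) 1) ((swap (2 : Fin 7) 3) i) = (swap (2 : Fin 7) 3) i := by
      rcases h with rfl | rfl <;> decide
    rw [h1, h2]
    ring
  · have h1 : (swap (2 : Fin 7) 3) i = i := by
      push Not at h
      exact swap_apply_of_ne_of_ne h.1 h.2
    rw [h1]
    ring

theorem t_not_mem_Q [CharZero k] : D.t ∉ D.Q := by
  intro h
  have h1 : D.Q ≤ LinearMap.ker (op1 (k := k)) := by
    unfold Q
    rw [Submodule.span_le]
    rintro _ (⟨i, rfl⟩ | ⟨i, rfl⟩)
    · exact op1_equi D.f D.f_eq i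
    · exact op1_equi D.g D.g_eq i
  have h2 : op1 D.t = 0 := h1 h
  rw [op1_apply, map_sub, D.t_alt 2 3 (by decide), map_neg, D.t_alt 0 1 (by decide)] at h2
  have h3 : (4 : MvPolynomial (Fin 7) k) * D.t = 0 := by
    linear_combination h2
  rcases mul_eq_zero.1 h3 with h4 | h4
  · exact absurd h4 (by norm_num)
  · exact D.t_ne h4

theorem ne_one [CharZero k] (v : MvPolynomial (Fin 7) k)
    (hv : v ∈ Submodule.span k (Set.range D.gens)) (i j : Fin 7) (hij : i ≠ j)
    (hτ : rename (swap i j) v = v)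
    (hO : D.t ∈ Submodule.span k (Set.range fun σ : Perm (Fin 7) => rename σ v)) : False := by
  have h1 : Submodule.span k (Set.range D.gens) ≤ D.Q.comap (LinearMap.id + rn (swap i j)) := by
    rw [Submodule.span_le]
    rintro _ ⟨l, rfl⟩
    show D.gens l + rename (swap i j) (D.gens l) ∈ D.Q
    rcases l with _ | l | l
    · show D.t + rename (swap i j) D.t ∈ D.Q
      rw [D.t_alt i j hij, add_neg_cancel]
      exact D.Q.zero_mem
    · show D.f l + rename (swap i j) (D.f l) ∈ D.Q
      rw [D.f_eq]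
      exact D.Q.add_mem (D.f_mem_Q _) (D.f_mem_Q _)
    · show D.g l + rename (swap i j) (D.g l) ∈ D.Q
      rw [D.g_eq]
      exact D.Q.add_mem (D.g_mem_Q _) (D.g_mem_Q _)
  have h2 : v + rename (swap i j) v ∈ D.Q := h1 hv
  rw [hτ, ← two_smul k v] at h2
  have h3 : v ∈ D.Q := (D.Q.smul_mem_iff (two_ne_zero)).1 h2
  apply D.t_not_mem_Q
  have h4 : Submodule.span k (Set.range fun σ : Perm (Fin 7) => rename σ v) ≤ D.Q := by
    rw [Submodule.span_le]
    rintro _ ⟨σ, rfl⟩
    exact D.stab_Q σ v h3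
  exact h4 hO

/-- The operator `(1 - (0 1)) (1 + (2 3))`. -/
noncomputable def op2 : MvPolynomial (Fin 7) k →ₗ[k] MvPolynomial (Fin 7) k :=
  (LinearMap.id - rn (swap 0 1)) ∘ₗ (LinearMap.id + rn (swap 2 3))

theorem op2_apply (p : MvPolynomial (Fin 7) k) : op2 p =
    p + rename (swap 2 3) p - rename (swap 0 1) (p + rename (swap 2 3) p) := rfl

theorem op2_equi (v : Fin 7 → MvPolynomial (Fin 7) k)
    (hv : ∀ (σ : Perm (Fin 7)) (i : Fin 7), rename σ (v i) = v (σ i)) (i : Fin 7) :
    op2 (v i) ∈ Submodule.span k {v 0 - v 1} := by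
  rw [op2_apply]
  simp only [map_add, hv]
  have hs : v 0 - v 1 ∈ Submodule.span k {v 0 - v 1} := Submodule.mem_span_singleton_self _
  by_cases h0 : i = 0
  · subst h0
    rw [show (swap (2 : Fin 7) 3) 0 = 0 by decide, show (swap (0 : Fin 7) 1) 0 = 1 by decide]
    have := Submodule.add_mem _ hs hs
    convert this using 1
    ring
  by_cases h1 : i = 1
  · subst h1
    rw [show (swap (2 : Fin 7) 3) 1 = 1 by decide, show (swap (0 : Fin 7) 1) 1 = 0 by decide]
    have := Submodule.neg_mem _ (Submodule.add_mem _ hs hs)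
    convert this using 1
    ring
  have h2 : (swap (0 : Fin 7) 1) i = i := swap_apply_of_ne_of_ne h0 h1
  have h3 : (swap (0 : Fin 7) 1) ((swap (2 : Fin 7) 3) i) = (swap (2 : Fin 7) 3) i := by
    revert i
    decide
  rw [h2, h3, sub_self]
  exact Submodule.zero_mem _

theorem op2_t : op2 D.t = 0 := by
  rw [op2_apply, D.t_alt 2 3 (by decide), add_neg_cancel, map_zero, sub_zero]

theorem op2_zero (v : Fin 7 → MvPolynomial (Fin 7) k)
    (hv : ∀ (σ : Perm (Fin 7)) (i : Fin 7), rename σ (v i) = v (σ i)) :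
    op2 (v 0) = 2 * (v 0 - v 1) := by
  rw [op2_apply]
  simp only [map_add, hv]
  rw [show (swap (2 : Fin 7) 3) 0 = 0 by decide, show (swap (0 : Fin 7) 1) 0 = 1 by decide]
  ring

/-- If `v_0` lies in the span of `t` and the `h_i`, then `v = μ h`. -/
theorem prop_of_mem [CharZero k] (v h : Fin 7 → MvPolynomial (Fin 7) k)
    (hv : ∀ (σ : Perm (Fin 7)) (i : Fin 7), rename σ (v i) = v (σ i))
    (hh : ∀ (σ : Perm (Fin 7)) (i : Fin 7), rename σ (h i) = h (σ i))
    (hv0 : ∑ i, v i = 0) (hh0 : ∑ i, h i = 0)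
    (hm : v 0 ∈ Submodule.span k (insert D.t (Set.range h))) :
    ∃ μ : k, ∀ i, v i = C μ * h i := by
  have h1 : Submodule.span k (insert D.t (Set.range h)) ≤
      (Submodule.span k {h 0 - h 1}).comap (op2 (k := k)) := by
    rw [Submodule.span_le]
    rintro _ (rfl | ⟨i, rfl⟩)
    · show op2 D.t ∈ Submodule.span k {h 0 - h 1}
      rw [D.op2_t]
      exact Submodule.zero_mem _
    · exact op2_equi h hh i
  have h2 : op2 (v 0) ∈ Submodule.span k {h 0 - h 1} := h1 hm
  rw [op2_zero v hv, Submodule.mem_span_singleton] at h2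
  obtain ⟨ν, hν⟩ := h2
  have h3 : v 0 - v 1 = C (ν / 2) * (h 0 - h 1) := by
    have h4 : (2 : MvPolynomial (Fin 7) k) * (v 0 - v 1 - C (ν / 2) * (h 0 - h 1)) = 0 := by
      have h5 : (2 : MvPolynomial (Fin 7) k) * C (ν / 2) = C ν := by
        have : (2 : MvPolynomial (Fin 7) k) = C (2 : k) := (map_ofNat C 2).symm
        rw [this, ← C_mul, mul_div_cancel₀ _ (two_ne_zero)]
      rw [smul_eq_C_mul] at hν
      linear_combination (-1 : MvPolynomial (Fin 7) k) * hν - (h 0 - h 1) * h5
    rcases mul_eq_zero.1 h4 with h5 | h5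
    · exact absurd h5 (by norm_num)
    · exact sub_eq_zero.1 h5
  refine ⟨ν / 2, ?_⟩
  have h4 : ∀ a b : Fin 7, v a - v b = C (ν / 2) * (h a - h b) := by
    intro a b
    by_cases hab : a = b
    · rw [hab, sub_self, sub_self, mul_zero]
    · obtain ⟨c, hca, hcb⟩ : ∃ c : Fin 7, a ≠ c ∧ b ≠ c := by
        revert a b
        decide
      obtain ⟨σ, e1, e2, _⟩ := exists_perm3 (a := 0) (b := 1) (c := 2) (a' := a) (b' := b)
        (c' := c) (by decide) (by decide) (by decide) hab hca hcb
      have := congrArg (rename σ) h3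
      rwa [map_sub, hv, hv, map_mul, rename_C, map_sub, hh, hh, e1, e2] at this
  intro a
  have h5 : ∑ b, (v a - v b) = ∑ b, C (ν / 2) * (h a - h b) :=
    Finset.sum_congr rfl fun b _ => h4 a b
  rw [Finset.sum_sub_distrib, hv0, ← Finset.mul_sum, Finset.sum_sub_distrib, hh0,
    Finset.sum_const, Finset.sum_const, Finset.card_univ, Fintype.card_fin] at h5
  simp only [nsmul_eq_mul, sub_zero] at h5
  push_cast at h5
  have h6 : (7 : MvPolynomial (Fin 7) k) * (v a - C (ν / 2) * h a) = 0 := by
    linear_combination h5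
  rcases mul_eq_zero.1 h6 with h7 | h7
  · exact absurd h7 (by norm_num)
  · exact sub_eq_zero.1 h7

theorem ne_neg_one [CharZero k] (v : MvPolynomial (Fin 7) k)
    (hv : v ∈ Submodule.span k (Set.range D.gens)) (i j : Fin 7) (hij : i ≠ j)
    (hτ : rename (swap i j) v = -v)
    (hOf : D.f 0 ∈ Submodule.span k (Set.range fun σ : Perm (Fin 7) => rename σ v))
    (hOg : D.g 0 ∈ Submodule.span k (Set.range fun σ : Perm (Fin 7) => rename σ v)) :
    False := by
  have h1 : Submodule.span k (Set.range D.gens) ≤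
      (Submodule.span k {D.t, D.f i - D.f j, D.g i - D.g j}).comap
        (LinearMap.id - rn (swap i j)) := by
    rw [Submodule.span_le]
    rintro _ ⟨l, rfl⟩
    show D.gens l - rename (swap i j) (D.gens l) ∈
      Submodule.span k {D.t, D.f i - D.f j, D.g i - D.g j}
    have m1 : D.t ∈ Submodule.span k {D.t, D.f i - D.f j, D.g i - D.g j} :=
      Submodule.subset_span (by simp)
    have m2 : D.f i - D.f j ∈ Submodule.span k {D.t, D.f i - D.f j, D.g i - D.g j} :=
      Submodule.subset_span (by simp)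
    have m3 : D.g i - D.g j ∈ Submodule.span k {D.t, D.f i - D.f j, D.g i - D.g j} :=
      Submodule.subset_span (by simp)
    rcases l with _ | l | l
    · show D.t - rename (swap i j) D.t ∈ _
      rw [D.t_alt i j hij, sub_neg_eq_add]
      exact Submodule.add_mem _ m1 m1
    · show D.f l - rename (swap i j) (D.f l) ∈ _
      rw [D.f_eq]
      by_cases hi : l = i
      · rw [hi, swap_apply_left]
        exact m2
      by_cases hj : l = j
      · rw [hj, swap_apply_right]
        have := Submodule.neg_mem _ m2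
        rwa [neg_sub] at this
      rw [swap_apply_of_ne_of_ne hi hj, sub_self]
      exact Submodule.zero_mem _
    · show D.g l - rename (swap i j) (D.g l) ∈ _
      rw [D.g_eq]
      by_cases hi : l = i
      · rw [hi, swap_apply_left]
        exact m3
      by_cases hj : l = j
      · rw [hj, swap_apply_right]
        have := Submodule.neg_mem _ m3
        rwa [neg_sub] at this
      rw [swap_apply_of_ne_of_ne hi hj, sub_self]
      exact Submodule.zero_mem _
  have h2 : v - rename (swap i j) v ∈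
      Submodule.span k {D.t, D.f i - D.f j, D.g i - D.g j} := h1 hv
  rw [hτ, sub_neg_eq_add, ← two_smul k v] at h2
  have h3 := (Submodule.smul_mem_iff _ (two_ne_zero)).1 h2
  rw [Submodule.mem_span_triple] at h3
  obtain ⟨α, a, b, hab⟩ := h3
  simp only [smul_eq_C_mul] at hab
  set h : Fin 7 → MvPolynomial (Fin 7) k := fun l => C a * D.f l + C b * D.g l with hh
  have hhe : ∀ (σ : Perm (Fin 7)) (i : Fin 7), rename σ (h i) = h (σ i) := by
    intro σ i
    simp only [hh, map_add, map_mul, rename_C, D.f_eq, D.g_eq]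
  have hh0 : ∑ i, h i = 0 := by
    simp only [hh]
    rw [Finset.sum_add_distrib, ← Finset.mul_sum, ← Finset.mul_sum, D.f_sum, D.g_sum]
    ring
  have hv' : v = C α * D.t + (h i - h j) := by
    rw [← hab]
    simp only [hh]
    ring
  have hO : Submodule.span k (Set.range fun σ : Perm (Fin 7) => rename σ v) ≤
      Submodule.span k (insert D.t (Set.range h)) := by
    rw [Submodule.span_le]
    rintro _ ⟨σ, rfl⟩
    show rename σ v ∈ Submodule.span k (insert D.t (Set.range h))
    have mt : D.t ∈ Submodule.span k (insert D.t (Set.range h)) :=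
      Submodule.subset_span (Set.mem_insert _ _)
    have mh : ∀ l, h l ∈ Submodule.span k (insert D.t (Set.range h)) := fun l =>
      Submodule.subset_span (Set.mem_insert_of_mem _ ⟨l, rfl⟩)
    rw [hv', map_add, map_mul, rename_C, map_sub, hhe, hhe]
    refine Submodule.add_mem _ ?_ (Submodule.sub_mem _ (mh _) (mh _))
    rw [← smul_eq_C_mul]
    apply Submodule.smul_mem
    rcases D.rename_t σ with e | e
    · rw [e]
      exact mt
    · rw [e]
      exact Submodule.neg_mem _ mt
  obtain ⟨μ, hμ⟩ := D.prop_of_mem D.f h D.f_eq hhe D.f_sum hh0 (hO hOf)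
  obtain ⟨ν, hν⟩ := D.prop_of_mem D.g h D.g_eq hhe D.g_sum hh0 (hO hOg)
  have e1 : C μ ^ 2 * ∑ i, h i ^ 2 = 0 := by
    rw [← D.f_sq, Finset.mul_sum]
    refine Finset.sum_congr rfl fun i _ => ?_
    rw [hμ i]
    ring
  have e2 : C μ * C ν * ∑ i, h i ^ 2 = D.t ^ 2 := by
    rw [← D.fg, Finset.mul_sum]
    refine Finset.sum_congr rfl fun i _ => ?_
    rw [hμ i, hν i]
    ring
  have e3 : C μ * D.t ^ 2 = 0 := by
    rw [← e2]
    linear_combination (C ν : MvPolynomial (Fin 7) k) * e1
  have ht2 : D.t ^ 2 ≠ 0 := pow_ne_zero 2 D.t_ne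
  rcases mul_eq_zero.1 e3 with e4 | e4
  · rw [e4, zero_mul, zero_mul] at e2
    exact ht2 e2.symm
  · exact ht2 e4

theorem no_tau [CharZero k] (p : MvPolynomial (Fin 7) k) (hp : D.I = symIdeal p) (i j : Fin 7)
    (hij : i ≠ j) (c : k) : rename (swap i j) p ≠ C c * p := by
  intro hτ
  have hpI : p ∈ D.I := by
    rw [hp]
    exact self_mem_symIdeal p
  set v := homogeneousComponent D.m p with hv
  have hvW := (D.lead_mem p hpI).2
  rw [← hv] at hvW
  have hO := D.gens_mem_orbit p hp
  rw [← hv] at hO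
  have ht : D.t ∈ Submodule.span k (Set.range fun σ : Perm (Fin 7) => rename σ v) := hO none
  have hf : D.f 0 ∈ Submodule.span k (Set.range fun σ : Perm (Fin 7) => rename σ v) :=
    hO (some (Sum.inl 0))
  have hg : D.g 0 ∈ Submodule.span k (Set.range fun σ : Perm (Fin 7) => rename σ v) :=
    hO (some (Sum.inr 0))
  have hτv : rename (swap i j) v = C c * v := by
    rw [hv, rename_homogeneousComponent, hτ, homogeneousComponent_C_mul]
  have hv0 : v ≠ 0 := by
    intro h0
    rw [h0] at ht
    simp only [map_zero, Set.range_const, Submodule.span_zero_singleton, Submodule.mem_bot] at ht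
    exact D.t_ne ht
  have hcc : C c * (C c * v) = v := by
    have h1 : rename (swap i j) (rename (swap i j) v) = v := by
      rw [rename_rename', swap_mul_self]
      show rename (id : Fin 7 → Fin 7) v = v
      exact rename_id_apply v
    rw [hτv, map_mul, rename_C, hτv] at h1
    exact h1
  have hc2 : (c - 1) * (c + 1) = 0 := by
    have h1 : C ((c - 1) * (c + 1)) * v = 0 := by
      have h2 : (C ((c - 1) * (c + 1)) : MvPolynomial (Fin 7) k) = C c * C c - 1 := by
        rw [show (c - 1) * (c + 1) = c * c - 1 by ring, C_sub, C_mul, C_1]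
      rw [h2]
      linear_combination hcc
    rcases mul_eq_zero.1 h1 with h2 | h2
    · rwa [C_eq_zero] at h2
    · exact absurd h2 hv0
  rcases mul_eq_zero.1 hc2 with h1 | h1
  · have hc1 : c = 1 := sub_eq_zero.1 h1
    rw [hc1, C_1, one_mul] at hτv
    exact D.ne_one v hvW i j hij hτv ht
  · have hc1 : c = -1 := eq_neg_of_add_eq_zero_left h1
    rw [hc1, C_neg, C_1, neg_one_mul] at hτv
    exact D.ne_neg_one v hvW i j hij hτv hf hg

end Cfg

end Q23Psi
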