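import Mathlib
import Pool.Agent.Q23.Psi.NoTau

/-!
# A configuration from one isotropic equivariant tuple
-/

namespace Q23Psi

open MvPolynomial Equiv

variable {k : Type*} [Field k]

/-- The Vandermonde determinant. -/
noncomputable def vdm (k : Type*) [Field k] : MvPolynomial (Fin 7) k :=
  (Matrix.vandermonde (fun i : Fin 7 => (X i : MvPolynomial (Fin 7) k))).det

theorem vdm_ne : vdm k ≠ 0 := by
  unfold vdm
  rw [Matrix.det_vandermonde_ne_zero_iff]
  exact X_injective

theorem vdm_hom : ∃ δ, (vdm k).IsHomogeneous δ := by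
  refine ⟨∑ i : Fin 7, ∑ j ∈ Finset.Ioi i, 1, ?_⟩
  unfold vdm
  rw [Matrix.det_vandermonde]
  apply IsHomogeneous.prod
  intro i _
  apply IsHomogeneous.prod
  intro j _
  exact (isHomogeneous_X k j).sub (isHomogeneous_X k i)

theorem vdm_alt (i j : Fin 7) (hij : i ≠ j) : rename (swap i j) (vdm k) = - vdm k := by
  unfold vdm
  have h1 : rename (swap i j)
      (Matrix.vandermonde (fun i : Fin 7 => (X i : MvPolynomial (Fin 7) k))).det =
      ((Matrix.vandermonde (fun i : Fin 7 => (X i : MvPolynomial (Fin 7) k))).submatrix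
        (swap i j) id).det := by
    rw [AlgHom.map_det]
    congr 1
    ext a b : 2
    simp [Matrix.vandermonde_apply]
  rw [h1, Matrix.det_permute, Perm.sign_swap hij]
  simp

theorem exists_cfg [IsAlgClosed k] [CharZero k] (a : ℕ) (f : Fin 7 → MvPolynomial (Fin 7) k)
    (hf : f ≠ 0) (hhom : ∀ i, (f i).IsHomogeneous a)
    (hfe : ∀ (σ : Perm (Fin 7)) (i : Fin 7), rename σ (f i) = f (σ i))
    (hf1 : ∑ i, f i = 0) (hf2 : ∑ i, f i ^ 2 = 0) : Nonempty (Cfg k) := by
  obtain ⟨c, hc⟩ : ∃ c : ℕ, ∑ i, f i * X i ^ c ≠ 0 := by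
    by_contra hcon
    push Not at hcon
    exact hf (Matrix.eq_zero_of_forall_pow_sum_mul_pow_eq_zero
      (X_injective (R := k) (σ := Fin 7)) (fun i => hcon i))
  obtain ⟨δ, hδ⟩ := vdm_hom (k := k)
  obtain ⟨s, hs⟩ := IsAlgClosed.exists_eq_mul_self (2 : k)
  set P : MvPolynomial (Fin 7) k := ∑ i, X i with hP
  set pc : MvPolynomial (Fin 7) k := ∑ i, X i ^ c with hpc
  set w : Fin 7 → MvPolynomial (Fin 7) k := fun i => 7 * X i ^ c - pc with hw
  set u : MvPolynomial (Fin 7) k := ∑ i, f i * w i with hu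
  set W : MvPolynomial (Fin 7) k := ∑ i, w i ^ 2 with hW
  set g : Fin 7 → MvPolynomial (Fin 7) k := fun i => 2 * u * w i - W * f i with hg
  have hsC : (C s : MvPolynomial (Fin 7) k) * C s = 2 := by
    rw [← C_mul, ← hs]
    exact map_ofNat C 2
  -- invariance
  have hsum : ∀ (σ : Perm (Fin 7)) (v : Fin 7 → MvPolynomial (Fin 7) k),
      ∑ i, v (σ i) = ∑ i, v i := fun σ v => Equiv.sum_comp σ v
  have hPi : ∀ σ : Perm (Fin 7), rename σ P = P := by
    intro σ
    rw [hP, map_sum]
    simp only [rename_X]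
    exact hsum σ (fun i => X i)
  have hpci : ∀ σ : Perm (Fin 7), rename σ pc = pc := by
    intro σ
    rw [hpc, map_sum]
    simp only [map_pow, rename_X]
    exact hsum σ (fun i => X i ^ c)
  have hwe : ∀ (σ : Perm (Fin 7)) (i : Fin 7), rename σ (w i) = w (σ i) := by
    intro σ i
    simp only [hw, map_sub, map_mul, map_pow, rename_X, hpci, map_ofNat]
  have hui : ∀ σ : Perm (Fin 7), rename σ u = u := by
    intro σ
    rw [hu, map_sum]
    simp only [map_mul, hfe, hwe]
    exact hsum σ (fun i => f i * w i)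
  have hWi : ∀ σ : Perm (Fin 7), rename σ W = W := by
    intro σ
    rw [hW, map_sum]
    simp only [map_pow, hwe]
    exact hsum σ (fun i => w i ^ 2)
  have hge : ∀ (σ : Perm (Fin 7)) (i : Fin 7), rename σ (g i) = g (σ i) := by
    intro σ i
    simp only [hg, map_sub, map_mul, hui, hWi, hfe, hwe, map_ofNat]
  -- sums
  have hw1 : ∑ i, w i = 0 := by
    simp only [hw]
    rw [Finset.sum_sub_distrib, ← Finset.mul_sum, Finset.sum_const, Finset.card_univ,
      Fintype.card_fin, nsmul_eq_mul, ← hpc]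
    push_cast
    ring
  have hg1 : ∑ i, g i = 0 := by
    simp only [hg]
    rw [Finset.sum_sub_distrib, ← Finset.mul_sum, ← Finset.mul_sum, hw1, hf1]
    ring
  have hg2 : ∑ i, g i ^ 2 = 0 := by
    have e : ∀ i, g i ^ 2 = 4 * u ^ 2 * w i ^ 2 - 4 * u * W * (f i * w i) + W ^ 2 * f i ^ 2 := by
      intro i
      simp only [hg]
      ring
    simp only [e]
    rw [Finset.sum_add_distrib, Finset.sum_sub_distrib, ← Finset.mul_sum, ← Finset.mul_sum,
      ← Finset.mul_sum, hf2, ← hu, ← hW]
    ring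
  have hfg : ∑ i, f i * g i = 2 * u ^ 2 := by
    have e : ∀ i, f i * g i = 2 * u * (f i * w i) - W * f i ^ 2 := by
      intro i
      simp only [hg]
      ring
    simp only [e]
    rw [Finset.sum_sub_distrib, ← Finset.mul_sum, ← Finset.mul_sum, hf2, ← hu]
    ring
  -- nonvanishing
  have hu0 : u ≠ 0 := by
    have : u = 7 * ∑ i, f i * X i ^ c := by
      rw [hu, Finset.mul_sum]
      have e : ∀ i, f i * w i = 7 * (f i * X i ^ c) - pc * f i := by
        intro i
        simp only [hw]
        ring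
      simp only [e]
      rw [Finset.sum_sub_distrib, ← Finset.mul_sum (f := fun i => f i), hf1, mul_zero, sub_zero]
    rw [this]
    exact mul_ne_zero (by norm_num) hc
  have hP0 : P ≠ 0 := by
    intro h
    have h1 := congrArg (MvPolynomial.eval (fun _ => (1 : k))) h
    rw [hP, map_sum] at h1
    simp at h1
  have hs0 : s ≠ 0 := by
    rintro rfl
    simp at hs
  have hCs0 : (C s : MvPolynomial (Fin 7) k) ≠ 0 := by
    rwa [Ne, C_eq_zero]
  -- degrees
  have hPh : P.IsHomogeneous 1 := by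
    rw [hP]
    exact IsHomogeneous.sum _ _ _ fun i _ => isHomogeneous_X k i
  have hpch : pc.IsHomogeneous c := by
    rw [hpc]
    exact IsHomogeneous.sum _ _ _ fun i _ => isHomogeneous_X_pow i c
  have h7 : ∀ n : ℕ, (OfNat.ofNat (n + 2) : MvPolynomial (Fin 7) k).IsHomogeneous 0 := by
    intro n
    rw [← map_ofNat (C : k →+* MvPolynomial (Fin 7) k) (n + 2)]
    exact isHomogeneous_C _ _
  have hwh : ∀ i, (w i).IsHomogeneous c := by
    intro i
    have := ((h7 5).mul (isHomogeneous_X_pow (R := k) i c)).sub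
      (by rw [zero_add]; exact hpch)
    rwa [zero_add] at this
  have huh : u.IsHomogeneous (a + c) := by
    rw [hu]
    exact IsHomogeneous.sum _ _ _ fun i _ => (hhom i).mul (hwh i)
  have hWh : W.IsHomogeneous (c * 2) := by
    rw [hW]
    exact IsHomogeneous.sum _ _ _ fun i _ => (hwh i).pow 2
  have hgh : ∀ i, (g i).IsHomogeneous (a + 2 * c) := by
    intro i
    have h1 := ((h7 0).mul huh).mul (hwh i)
    have h2 := hWh.mul (hhom i)
    rw [show 0 + (a + c) + c = a + 2 * c by ring] at h1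
    rw [show c * 2 + a = a + 2 * c by ring] at h2
    exact h1.sub h2
  refine ⟨{
    m := a + 2 * c + 2 * δ
    t := C s * u * P ^ (c + δ) * vdm k
    f := fun i => P ^ (2 * c + 2 * δ) * f i
    g := fun i => vdm k ^ 2 * g i
    t_hom := ?_
    f_hom := ?_
    g_hom := ?_
    t_ne := ?_
    t_alt := ?_
    f_eq := ?_
    g_eq := ?_
    f_sum := ?_
    g_sum := ?_
    f_sq := ?_
    g_sq := ?_
    fg := ?_ }⟩
  · have := (((isHomogeneous_C (Fin 7) s).mul huh).mul (hPh.pow (c + δ))).mul hδ
    rw [show 0 + (a + c) + 1 * (c + δ) + δ = a + 2 * c + 2 * δ by ring] at this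
    exact this
  · intro i
    have := (hPh.pow (2 * c + 2 * δ)).mul (hhom i)
    rw [show 1 * (2 * c + 2 * δ) + a = a + 2 * c + 2 * δ by ring] at this
    exact this
  · intro i
    have := (hδ.pow 2).mul (hgh i)
    rw [show δ * 2 + (a + 2 * c) = a + 2 * c + 2 * δ by ring] at this
    exact this
  · exact mul_ne_zero (mul_ne_zero (mul_ne_zero hCs0 hu0) (pow_ne_zero _ hP0)) vdm_ne
  · intro i j hij
    rw [map_mul, map_mul, map_mul, map_pow, rename_C, hui, hPi, vdm_alt i j hij]
    ring
  · intro σ i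
    rw [map_mul, map_pow, hPi, hfe]
  · intro σ i
    have hv2 : rename σ (vdm k ^ 2) = vdm k ^ 2 := by
      induction σ using Equiv.Perm.swap_induction_on with
      | one =>
        show rename (id : Fin 7 → Fin 7) (vdm k ^ 2) = vdm k ^ 2
        exact rename_id_apply _
      | swap_mul σ x y hxy ih =>
        rw [← rename_rename' (swap x y) σ, ih, map_pow, vdm_alt x y hxy]
        ring
    rw [map_mul, hv2, hge]
  · rw [← Finset.mul_sum, hf1, mul_zero]
  · rw [← Finset.mul_sum, hg1, mul_zero]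
  · simp only [mul_pow]
    rw [← Finset.mul_sum, hf2, mul_zero]
  · simp only [mul_pow]
    rw [← Finset.mul_sum, hg2, mul_zero]
  · have e : ∀ i, P ^ (2 * c + 2 * δ) * f i * (vdm k ^ 2 * g i) =
        P ^ (2 * c + 2 * δ) * vdm k ^ 2 * (f i * g i) := by
      intro i
      ring
    simp only [e]
    rw [← Finset.mul_sum, hfg]
    have e2 : (C s * u * P ^ (c + δ) * vdm k) ^ 2 =
        (C s * C s) * u ^ 2 * (P ^ (c + δ) * P ^ (c + δ)) * vdm k ^ 2 := by ring
    rw [e2, hsC, ← pow_add]
    rw [show c + δ + (c + δ) = 2 * c + 2 * δ by ring]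
    ring

end Q23Psi
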