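import Mathlib
import Pool.Agent.Q23.Psi.Build
import Pool.Agent.Helper273.Brg.P_iso_seven
import Pool.Agent.Helper273.Sup.P_exists_roots
import Pool.Agent.Helper273.Sup.P_exists_perm_aut
import Pool.Agent.Helper273.Sup.P_galois_mem
import Pool.Agent.Helper273.Sup.P_coeff_mem

/-!
# Existence of an isotropic equivariant 7-tuple of homogeneous polynomials
-/

namespace Q23Psi

open MvPolynomial Equiv Pool.Agent.Helper273.Sup

universe u

/-- The algebraic closure of the rational function field. -/
abbrev KK (k : Type u) [Field k] : Type u :=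
  AlgebraicClosure (FractionRing (MvPolynomial (Fin 7) k))

theorem exists_gen (k : Type u) [Field k] : ∃ x : Fin 7 → KK k, Gen k x := by
  have h0 := IsTranscendenceBasis.mvPolynomial (Fin 7) k
  have halg : Algebra.IsAlgebraic (MvPolynomial (Fin 7) k)
      (FractionRing (MvPolynomial (Fin 7) k)) :=
    IsLocalization.isAlgebraic _ (nonZeroDivisors (MvPolynomial (Fin 7) k))
  have h1 := h0.algebraMap_comp (A := FractionRing (MvPolynomial (Fin 7) k))
  have h2 := h1.algebraMap_comp (A := KK k)
  exact ⟨_, ⟨h2.1, h2.isAlgebraic_field⟩⟩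

variable {k : Type u} [Field k]

theorem exists_poly [IsAlgClosed k] [CharZero k] : ∃ F : Fin 7 → MvPolynomial (Fin 7) k,
    F ≠ 0 ∧ (∀ (σ : Perm (Fin 7)) (i : Fin 7), rename σ (F i) = F (σ i)) ∧
      ∑ i, F i = 0 ∧ ∑ i, F i ^ 2 = 0 := by
  classical
  obtain ⟨x, hx⟩ := exists_gen k
  obtain ⟨y, hy⟩ := exists_roots x
  obtain ⟨e, he0, heE, he1, he2⟩ := iso_seven x y hx hy
  have hyi := roots_indep x y hx hy
  have hmem : ∀ i, e i ∈ IntermediateField.adjoin k (Set.range y) := by
    intro i
    have h1 := galois_mem (IntermediateField.adjoin k (Set.range x)) hx.alg (Set.range y) (e i)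
      (fun σ hσ hs => heE σ hσ 1 (fun j => hs (y j) ⟨j, rfl⟩) i)
    have h2 : IntermediateField.adjoin k
        (((IntermediateField.adjoin k (Set.range x) : IntermediateField k (KK k)) : Set (KK k)) ∪
          Set.range y) ≤ IntermediateField.adjoin k (Set.range y) := by
      rw [IntermediateField.adjoin_le_iff]
      rintro z (hz | hz)
      · exact coeff_mem x y hy hz
      · exact IntermediateField.subset_adjoin k _ hz
    exact h2 h1
  have hfrac : ∀ i, ∃ P Q : MvPolynomial (Fin 7) k, Q ≠ 0 ∧
      e i * MvPolynomial.aeval y Q = MvPolynomial.aeval y P := by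
    intro i
    by_cases h0 : e i = 0
    · exact ⟨0, 1, one_ne_zero, by rw [h0]; simp⟩
    · obtain ⟨P, Q, hPQ⟩ := (IntermediateField.mem_adjoin_range_iff k y (e i)).1 (hmem i)
      have hQ : MvPolynomial.aeval y Q ≠ 0 := by
        intro h
        rw [h, div_zero] at hPQ
        exact h0 hPQ
      refine ⟨P, Q, ?_, ?_⟩
      · rintro rfl
        exact hQ (by simp)
      · rw [hPQ, div_mul_cancel₀ _ hQ]
  choose P Q hQ hPQ using hfrac
  set A : MvPolynomial (Fin 7) k := ∏ i, Q i with hA
  set D : MvPolynomial (Fin 7) k := ∏ σ : Perm (Fin 7), rename σ A with hD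
  have hA0 : A ≠ 0 := Finset.prod_ne_zero_iff.2 fun i _ => hQ i
  have hD0 : D ≠ 0 := by
    refine Finset.prod_ne_zero_iff.2 fun σ _ => ?_
    intro h
    exact hA0 (rename_injective σ σ.injective (by rw [h, map_zero]))
  have hDi : ∀ τ : Perm (Fin 7), rename τ D = D := by
    intro τ
    rw [hD, map_prod]
    simp only [rename_rename']
    exact Equiv.prod_comp (Equiv.mulLeft τ) (fun σ => rename σ A)
  have hQD : ∀ i, Q i ∣ D := by
    intro i
    have h1 : Q i ∣ A := Finset.dvd_prod_of_mem Q (Finset.mem_univ i)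
    have h2 : A ∣ D := by
      have h3 : rename (1 : Perm (Fin 7)) A ∣ D :=
        Finset.dvd_prod_of_mem (fun σ : Perm (Fin 7) => rename σ A) (Finset.mem_univ 1)
      have h4 : rename (1 : Perm (Fin 7)) A = A := by
        show rename (id : Fin 7 → Fin 7) A = A
        exact rename_id_apply A
      rwa [h4] at h3
    exact h1.trans h2
  choose R hR using hQD
  set F : Fin 7 → MvPolynomial (Fin 7) k := fun i => P i * R i with hF
  have hFe : ∀ i, MvPolynomial.aeval y (F i) = MvPolynomial.aeval y D * e i := by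
    intro i
    simp only [hF, map_mul]
    rw [← hPQ i]
    conv_rhs => rw [hR i, map_mul]
    ring
  have hinj : Function.Injective (MvPolynomial.aeval y : MvPolynomial (Fin 7) k →ₐ[k] KK k) := hyi
  have hDy : MvPolynomial.aeval y D ≠ 0 := by
    intro h
    exact hD0 (hinj (by rw [h, map_zero]))
  refine ⟨F, ?_, ?_, ?_, ?_⟩
  · intro h
    apply he0
    funext i
    have h1 := hFe i
    rw [h] at h1
    simp only [Pi.zero_apply, map_zero] at h1
    rcases mul_eq_zero.1 h1.symm with h2 | h2
    · exact absurd h2 hDy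
    · exact h2
  · intro π i
    apply hinj
    obtain ⟨σ, hσ, hσy⟩ := exists_perm_aut x y hx hy π
    have hren : ∀ p : MvPolynomial (Fin 7) k,
        σ (MvPolynomial.aeval y p) = MvPolynomial.aeval y (rename π p) := by
      intro p
      rw [aeval_rename]
      have h1 : (y ∘ π) = fun i => σ (y i) := by
        funext j
        exact (hσy j).symm
      rw [h1]
      have h2 := MvPolynomial.map_aeval y (σ : KK k →+* KK k) p
      induction p using MvPolynomial.induction_on with
      | C a => simp
      | add p q hp hq =>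
        rw [map_add, map_add, map_add]
        rw [hp (MvPolynomial.map_aeval y (σ : KK k →+* KK k) p),
          hq (MvPolynomial.map_aeval y (σ : KK k →+* KK k) q)]
      | mul_X p j hp =>
        rw [map_mul, map_mul, map_mul, hp (MvPolynomial.map_aeval y (σ : KK k →+* KK k) p)]
        simp
    rw [← hren, hFe, map_mul, hren, hDi, heE σ hσ π hσy i, ← hFe]
  · apply hinj
    rw [map_sum, map_zero]
    simp only [hFe]
    rw [← Finset.mul_sum, he1, mul_zero]
  · apply hinj
    rw [map_sum, map_zero]
    simp only [map_pow, hFe, mul_pow]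
    rw [← Finset.mul_sum, he2, mul_zero]

theorem exists_isotropic [IsAlgClosed k] [CharZero k] :
    ∃ (a : ℕ) (f : Fin 7 → MvPolynomial (Fin 7) k), f ≠ 0 ∧ (∀ i, (f i).IsHomogeneous a) ∧
      (∀ (σ : Perm (Fin 7)) (i : Fin 7), rename σ (f i) = f (σ i)) ∧
      ∑ i, f i = 0 ∧ ∑ i, f i ^ 2 = 0 := by
  classical
  obtain ⟨F, hF0, hFe, hF1, hF2⟩ := exists_poly (k := k)
  have hex : ∃ n, ∃ i, homogeneousComponent n (F i) ≠ 0 := by
    by_contra hcon
    push Not at hcon
    apply hF0
    funext i
    rw [← sum_homogeneousComponent (F i)]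
    exact Finset.sum_eq_zero fun n _ => hcon n i
  set N := Nat.find hex with hN
  have hN1 := Nat.find_spec hex
  have hN2 : ∀ n < N, ∀ i, homogeneousComponent n (F i) = 0 := by
    intro n hn i
    by_contra h
    exact Nat.find_min hex hn ⟨i, h⟩
  refine ⟨N, fun i => homogeneousComponent N (F i), ?_, ?_, ?_, ?_, ?_⟩
  · obtain ⟨i, hi⟩ := hN1
    intro h
    exact hi (congrFun h i)
  · intro i
    exact homogeneousComponent_isHomogeneous N (F i)
  · intro σ i
    rw [rename_homogeneousComponent, hFe]
  · rw [← map_sum, hF1, map_zero]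
  · have h1 : ∀ i, homogeneousComponent N (F i) ^ 2 = homogeneousComponent (2 * N) (F i ^ 2) :=
      fun i => (hc_sq (F i) N (fun m hm => hN2 m hm i)).symm
    simp only [h1]
    rw [← map_sum, hF2, map_zero]

end Q23Psi
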